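import Pool.Agent.Lib.MP_216314_pr.CF.End
import Pool.Agent.Lib.MP_216314_pr.CF.Conf

/-!
# MP_216314_pr: Cardy's formula for critical bond percolation on the square lattice

`CD.cri k L`: probability that the left side of the slit of the infinite strip `0 ≤ x + y ≤ L` with a slit along half of the line
`x + y = k` is connected, in the slit strip, to the right side `x + y = L` of the strip (all edges open with probability `1/2`).

`CFM.Om a`: the continuum slit strip, `CFM.ph a`: a conformal map of the upper half plane onto it, sending `1`, `1 - a`, `0`, `∞` to the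
end on the left of the slit, the tip of the slit, the end on the right of the slit and the third end. The left side of the slit is the
image of the segment between `1 - a` and `1`, the right side of the strip the image of the negative half line: the cross ratio is `a`.
-/

set_option autoImplicit false

open Filter Topology in
theorem Pool.Agent.Results.MP_216314_pr.Cardy.result :
    ∀ a : ℝ, 0 < a → a < 1 →
      (DifferentiableOn ℂ (CFM.ph a) {w : ℂ | 0 < w.im} ∧
        Set.BijOn (CFM.ph a) {w : ℂ | 0 < w.im} (CFM.Om a) ∧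
        Tendsto (CFM.ph a) (𝓝[{w : ℂ | 0 < w.im}] (1 - (a : ℂ))) (𝓝 ((a : ℂ) / 2 + (a : ℂ) / 2 * Complex.I)) ∧
        ∀ M : ℝ,
          (∀ᶠ w in 𝓝[{w : ℂ | 0 < w.im}] (1 : ℂ),
            (CFM.ph a w).re - (CFM.ph a w).im < M ∧ (CFM.ph a w).re + (CFM.ph a w).im < a) ∧
          (∀ᶠ w in 𝓝[{w : ℂ | 0 < w.im}] (0 : ℂ),
            (CFM.ph a w).re - (CFM.ph a w).im < M ∧ a < (CFM.ph a w).re + (CFM.ph a w).im) ∧
          (∀ᶠ w in cocompact ℂ ⊓ 𝓟 {w : ℂ | 0 < w.im}, M < (CFM.ph a w).re - (CFM.ph a w).im)) ∧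
      ∀ k L : ℕ → ℕ, Tendsto L atTop atTop → Tendsto (fun j => (k j : ℝ) / L j) atTop (𝓝 a) →
        Tendsto (fun j => CD.cri (k j) (L j)) atTop
          (𝓝 ((∫ x in (0 : ℝ)..a, (x * (1 - x)) ^ (-(2 / 3) : ℝ)) /
            ∫ x in (0 : ℝ)..1, (x * (1 - x)) ^ (-(2 / 3) : ℝ))) :=
  fun _ h0 h1 => ⟨⟨CFM.ph_diff _, CFM.ph_bij h0 h1, CFM.ph_tip h0 h1,
    fun M => ⟨CFM.ph_end_one h0 h1 M, CFM.ph_end_zero h0 h1 M, CFM.ph_end_inf h0 h1 M⟩⟩,
    fun _ _ hL h => CD.cardy_all CF.exact h0 h1 hL h⟩
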