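import Pool.Agent.Lib.MP_216314_pr.EV.FAll
import Pool.Agent.Lib.MP_216314_pr.N.FEnd
import Pool.Agent.Lib.MP_216314_pr.N.FX6
import Pool.Agent.Lib.MP_216314_pr.N.FX9
import Pool.Agent.Lib.MP_216314_pr.N.FTail
import Pool.Agent.Lib.MP_216314_pr.H.HMain

/-!
# MP_216314_pr: the critical exponents of bond percolation on the square lattice

`FKF.perc p`: bond percolation on `ℤ²` with parameter `p` (the random-cluster model with `q = 1`); `FKF.C0 S`: the open cluster of the origin.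
`FKF.thetaP p`: probability that it is infinite; `FKF.chiP p`: its mean size; `FKF.tauP p x`: probability that it contains `x`.
`FKN.p1 p n`: probability that the origin is connected inside `[-n,n]²` to the boundary of this square.
`FKP.piH n`, `FKP.piQ n`: probability (at `p = 1/2`) that the origin is connected inside `[-n,n] × [0,n]` to the left, right or upper side,
inside `[0,n]²` to the right or upper side.
`EV.pil l r n`: probability (at `p = 1/2`) that the annulus between `[-r,r]²` and `[-n,n]²` is crossed by `l` different open clusters and by a dual path.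
-/

set_option autoImplicit false

noncomputable section

namespace Pool.Agent.Results.MP_216314_pr.CriticalExponents

/-- `f` is between `c g` and `C g` -/
def Sim (c C f g : ℝ) : Prop := c * g ≤ f ∧ f ≤ C * g

/-- `f` is of the order `t ^ (-a)` times an exponential of `- t s ^ (4 / 3)` -/
def Dec (c C f a s t : ℝ) : Prop :=
  c * t ^ (-a) * Real.exp (-(C * t * s ^ (4 / 3 : ℝ))) ≤ f ∧ f ≤ C * t ^ (-a) * Real.exp (-(c * t * s ^ (4 / 3 : ℝ)))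

open FKF

theorem result :
    (∃ c C : ℝ, 0 < c ∧ 0 < C ∧ ∀ p : unitInterval, 1 / 2 < (p : ℝ) → Sim c C (thetaP p) ((p - 1 / 2) ^ (5 / 36 : ℝ))) ∧
    (∃ c C : ℝ, 0 < c ∧ 0 < C ∧ ∀ p : unitInterval, (p : ℝ) < 1 / 2 →
      ENNReal.ofReal (c * (1 / 2 - p) ^ (-(43 / 18) : ℝ)) ≤ chiP p ∧ chiP p ≤ ENNReal.ofReal (C * (1 / 2 - p) ^ (-(43 / 18) : ℝ))) ∧
    (∃ c C : ℝ, 0 < c ∧ 0 < C ∧ ∀ p : unitInterval, 0 < (p : ℝ) → (p : ℝ) < 1 / 2 → ∃ x : ℝ,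
      Filter.Tendsto (fun n : ℕ => -Real.log (tauP p ((n : ℤ), 0)) / n) Filter.atTop (nhds x) ∧
      c * (1 / 2 - p) ^ (4 / 3 : ℝ) ≤ x ∧ x ≤ C * (1 / 2 - p) ^ (4 / 3 : ℝ) * Real.log (1 / p)) ∧
    (∃ c C : ℝ, 0 < c ∧ 0 < C ∧ ∀ (p : unitInterval) (x : ℤ × ℤ) (r : ℕ), 1 / 4 ≤ (p : ℝ) → (p : ℝ) ≤ 1 / 2 → 1 ≤ r →
      max |x.1| |x.2| = r → Dec c C (tauP p x) (5 / 24) (1 / 2 - p) r) ∧
    (∃ c C : ℝ, 0 < c ∧ 0 < C ∧ ∀ (p : unitInterval) (N : ℕ), (p : ℝ) = 1 / 2 → 1 ≤ N →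
      Sim c C ((perc p).real {S | (N : ℕ∞) ≤ (C0 S).encard}) ((N : ℝ) ^ (-(5 / 91) : ℝ))) ∧
    (∃ c C : ℝ, 0 < c ∧ 0 < C ∧ ∀ n : ℕ, 1 ≤ n →
      (∀ p : ℝ, 1 / 2 ≤ p → p ≤ 1 → Sim c C (FKN.p1 p n) (max ((n : ℝ) ^ (-(5 / 48) : ℝ)) ((p - 1 / 2) ^ (5 / 36 : ℝ)))) ∧
      (∀ p : ℝ, 1 / 4 ≤ p → p ≤ 1 / 2 → Dec c C (FKN.p1 p n) (5 / 48) (1 / 2 - p) n)) ∧
    (∃ c C : ℝ, 0 < c ∧ 0 < C ∧ ∀ n : ℕ, 1 ≤ n →
      Sim c C (FKP.piH n) ((n : ℝ) ^ (-(1 / 3) : ℝ)) ∧ Sim c C (FKP.piQ n) ((n : ℝ) ^ (-(2 / 3) : ℝ))) ∧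
    (∀ l : ℕ, 1 ≤ l → ∃ c C : ℝ, 0 < c ∧ 0 < C ∧ ∀ r n : ℕ, l + 2 ≤ r → r ≤ n →
      Sim c C (EV.pil l r n) (((r : ℝ) / n) ^ ((4 * (l : ℝ) ^ 2 - 1) / 12 : ℝ))) := by
  have hO : FKP.OneArm := CY.one_arm
  refine ⟨theta_main win_in one12_in, chi_main win_in one12_in, xi_main win_in, ?_, ?_, ?_, ?_, fun _ hl => EV.even_arms_all hl⟩
  · obtain ⟨c, C, hc, hC, h⟩ := tau_near win_in one12_in
    refine ⟨c, C, hc, hC, fun p x r h1 h2 h3 h4 => h p x r h1 h2 h3 ?_⟩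
    unfold FKP.sd
    simpa using h4
  · obtain ⟨c, C, hc, hC, h⟩ := tail_main hO
    exact ⟨c, C, hc, hC, fun p N h1 h2 => h p N h1 h2⟩
  · exact arm_main win_in one12_in
  · obtain ⟨c, C, hc, hC, h⟩ := FKH.exponents_main
    exact ⟨c, C, hc, hC, fun n hn => ⟨⟨(h n hn).1, (h n hn).2.1⟩, (h n hn).2.2.1, (h n hn).2.2.2⟩⟩

end Pool.Agent.Results.MP_216314_pr.CriticalExponents
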