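import Pool.Agent.Lib.MP_216314_pr.I.IVf
import Pool.Agent.Lib.MP_216314_pr.I.DimF
import Pool.Agent.Lib.MP_216314_pr.EV.FMain
import Pool.Agent.Lib.MP_216314_pr.H.HMain
import Pool.Agent.Lib.MP_216314_pr.IC.EP
import Pool.Agent.Lib.MP_216314_pr.IC.C9
import Pool.Agent.Lib.MP_216314_pr.IC.TVb
import Pool.Agent.Lib.MP_216314_pr.IC.WA
import Pool.Agent.Lib.MP_216314_pr.IC.WI
import Pool.Agent.Lib.MP_216314_pr.IC.WK
import Pool.Agent.Lib.MP_216314_pr.IC.SK
import Pool.Agent.Lib.MP_216314_pr.IC.YQ
import Pool.Agent.Lib.MP_216314_pr.IC.YR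
import Pool.Agent.Lib.MP_216314_pr.IC.YZ

/-!
# The scaling limits of the critical percolation interface: dimension `7/4`, optimal Hölder exponent `4/7`, multiple points, sides

Bond percolation on the square lattice with parameter `1/2` (the critical random-cluster model with `q = 1`) in the rectangle `[0,A] × [0,B]`,
mesh `δ`, left and lower side open, right and upper side free. `icurve hA hB δ a b ω` is the rescaled interface in the configuration `ω` as
a parametrised curve (the polygonal line through the vertices of its corners); `claw hA hB δ` is its law in the space `Curve (Rect A B)` of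
curves modulo increasing reparametrisation with the uniform metric (the topology of the problem). `HoldC α C c`: the curve `c` has a
parametrisation by `[0,1]` which is Hölder continuous with the exponent `α` and the constant `C`. `Visits l c x`: the curve `c` visits the
point `x` at least `l` times, and it leaves `x` between these visits.
-/

set_option autoImplicit false

noncomputable section

namespace Pool.Agent.Results.MP_216314_pr.Interface

open MeasureTheory Filter Topology TopologicalSpace DimLim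

/-- the lower right corner `(A, 0)` -/
def lowerRight {A B : ℝ} (hA : 0 < A) (hB : 0 < B) : Rect A B := (⟨A, hA.le, le_rfl⟩, ⟨0, le_rfl, hB.le⟩)

/-- the upper left corner `(0, B)` -/
def upperLeft {A B : ℝ} (hA : 0 < A) (hB : 0 < B) : Rect A B := (⟨0, le_rfl, hA.le⟩, ⟨B, hB.le, le_rfl⟩)

/-- the point is in the open rectangle -/
def Inner {A B : ℝ} (x : Rect A B) : Prop := 0 < (x.1 : ℝ) ∧ (x.1 : ℝ) < A ∧ 0 < (x.2 : ℝ) ∧ (x.2 : ℝ) < B

/-- the point is on one of the four sides -/
def OnSide {A B : ℝ} (x : Rect A B) : Prop := (x.1 : ℝ) = 0 ∨ (x.1 : ℝ) = A ∨ (x.2 : ℝ) = 0 ∨ (x.2 : ℝ) = B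

/-- (1) For all `α < 4/7` and `ε > 0` there is a constant `C` such that at every mesh, with probability at least `1 - ε`, the interface has a
Hölder continuous parametrisation with the exponent `α` and the constant `C`. (2) The laws of the interface have subsequential limits in the
space of curves modulo increasing reparametrisation. (3) For every such limit almost every curve goes from the lower right to the upper left
corner, its trace has Hausdorff dimension `7/4`, and it has Hölder continuous parametrisations with all exponents `α < 4/7` and none with an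
exponent `α > 4/7`; in the open rectangle its double points have dimension `3/4` and it has no triple points; its intersection with the
sides of the rectangle has dimension `2/3`. -/
theorem result {A B : ℝ} (hA : 0 < A) (hB : 0 < B)
    [MeasurableSpace (Curve (Rect A B))] [BorelSpace (Curve (Rect A B))]
    (δ : ℕ → ℝ) (hδ : ∀ k, 0 < δ k) (hδ0 : Tendsto δ atTop (𝓝 0)) :
    (∀ α ε : ℝ, 0 < α → α < 4 / 7 → 0 < ε → ∃ C : ℝ, ∀ k,
      (claw hA.le hB.le (δ k) : Measure (Curve (Rect A B))) {c | HoldC α C c}ᶜ ≤ ENNReal.ofReal ε) ∧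
    (∃ (μ : ProbabilityMeasure (Curve (Rect A B))) (ψ : ℕ → ℕ), StrictMono ψ ∧
      Tendsto (fun k => claw hA.le hB.le (δ (ψ k))) atTop (𝓝 μ)) ∧
    ∀ (μ : ProbabilityMeasure (Curve (Rect A B))) (ψ : ℕ → ℕ), StrictMono ψ →
      Tendsto (fun k => claw hA.le hB.le (δ (ψ k))) atTop (𝓝 μ) →
        ∀ᵐ (c : Curve (Rect A B)) ∂(μ : Measure (Curve (Rect A B))),
          FromTo c (lowerRight hA hB) (upperLeft hA hB) ∧ dimH (trace c) = 7 / 4 ∧
          (∀ α : ℝ, 0 < α → α < 4 / 7 → ∃ C : ℝ, HoldC α C c) ∧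
          (∀ α C : ℝ, 4 / 7 < α → ¬ HoldC α C c) ∧
          dimH {x : Rect A B | Inner x ∧ Visits 2 c x} = 3 / 4 ∧
          (∀ x : Rect A B, Inner x → ¬ Visits 3 c x) ∧
          dimH {x : Rect A B | x ∈ trace c ∧ OnSide x} = 2 / 3 := by
  have hE : EvUp := by
    have h := EV.pil_up (l := 1) le_rfl
    rw [al_one] at h
    exact h
  have hU : HypU Trc := hypU_trc (twoUp_of_ev hE)
  have hT : HypT := hypT
  have hH : FKP.HalfArm := by
    obtain ⟨c, C, hc, hC, h⟩ := FKH.exponents_main
    exact ⟨c, C, hc, hC, fun n hn => ⟨(h n hn).1, (h n hn).2.1⟩⟩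
  refine ⟨fun α ε hα hα1 hε => hold_unif hU hT hA hB hδ hδ0 hα hα1 hε, claw_limit hU hT hA hB hδ hδ0,
    fun μ ψ hψ hμ => ?_⟩
  have hδ' : Tendsto (fun k => δ (ψ k)) atTop (𝓝 0) := hδ0.comp hψ.tendsto_atTop
  letI : MeasurableSpace (NonemptyCompacts (Rect A B)) := borel _
  haveI : BorelSpace (NonemptyCompacts (Rect A B)) := ⟨rfl⟩
  have h1 := curve_ends hA.le hB.le (fun k => hδ (ψ k)) hδ' hμ
  have h2 := curve_dim hA.le hB.le (fun k => hδ (ψ k)) hδ' hμ fun ν hν =>
    interface_of_ev (R := 3) hE (by norm_num) (EV.wE_low le_rfl le_rfl) hA hB (fun k => hδ (ψ k)) hδ' hν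
  have h3 := claw_hold hU hT hA hB (fun k => hδ (ψ k)) hδ' hμ
  have h4 := double_dim (hypE (by norm_num)) hA hB (fun k => hδ (ψ k)) hδ' hμ
  have h5 := no_triple (hypE (by norm_num)) hA hB (fun k => hδ (ψ k)) hδ' hμ
  have h6 := sides_dim hH hA hB (fun k => hδ (ψ k)) hδ' hμ
  have h7 := double_lower hp2 hw4 hA hB (fun k => hδ (ψ k)) hδ' hμ
  have h8 := side_lower hH hA hB (fun k => hδ (ψ k)) hδ' hμ
  filter_upwards [h1, h2, h3, h4, h5, h6, h7, h8] with c hc1 hc2 hc3 hc4 hc5 hc6 hc7 hc8
  refine ⟨hc1, hc2, hc3, fun α C hα => not_hold hα hc2, le_antisymm ?_ ?_, fun x hx => hc5 x hx.1 hx.2.1 hx.2.2.1 hx.2.2.2,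
    le_antisymm hc6 ?_⟩
  · refine le_trans (dimH_mono ?_) hc4
    rintro x ⟨⟨hx1, hx2, hx3, hx4⟩, hv⟩
    exact ⟨hx1, hx2, hx3, hx4, hv⟩
  · refine le_trans hc7 (dimH_mono ?_)
    rintro x ⟨hx1, hx2, hx3, hx4, hv⟩
    exact ⟨⟨hx1, hx2, hx3, hx4⟩, hv⟩
  · refine le_trans hc8 (dimH_mono ?_)
    rintro x ⟨hx, hxA⟩
    exact ⟨hx, Or.inr (Or.inl hxA)⟩

end Pool.Agent.Results.MP_216314_pr.Interface
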