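import Pool.Agent.Lib.MP_216314_pr.Sc.ScLim
import Pool.Agent.Lib.MP_216314_pr.SM.Ends

/-!
# MP_216314_pr: Schramm's formula for critical bond percolation on the square lattice

`SCH.sri c n`: probability that, in the surface of `SCH.sE`, `SCH.sa` (the strip `0 ≤ x + y ≤ c + 2 n`, cut along `x + y = c`, `x < y`, the
right side of the cut glued with `x + y = c + 2 n`, `x < y`: a half strip of width `c` and a half infinite cylinder of circumference `2 n`
join a half strip), the open clusters of the right boundary separate the end of the cylinder from the left boundary `x + y = 0`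
(all edges open with probability `1/2`).

`SM.Om s`: the continuum surface, `SM.sc s`: a conformal map of the upper half plane without `i` onto it, sending `2 √s / (1 - s)`, `i`,
`∞` to the end of the left half strip, the end of the cylinder, the end of the upper half strip, and the real numbers `> 2 √s / (1 - s)` to
the left boundary. The limit of the probability is the probability that a chordal SLE(6) from `2 √s / (1 - s)` to `∞` passes to the right
of the point `i` (Schramm 2001).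
-/

set_option autoImplicit false

open Filter Topology in
theorem Pool.Agent.Results.MP_216314_pr.Schramm.result :
    ∀ s : ℝ, 0 < s → s < 1 →
      (Set.BijOn (SM.sc s) {w : ℂ | 0 < w.im ∧ w ≠ Complex.I} (SM.Om s) ∧
        (∀ w : ℂ, 0 < w.im → w ≠ Complex.I → (SM.sc s w).re + (SM.sc s w).im < 1 →
          ∃ d : ℂ, d ≠ 0 ∧ HasDerivAt (SM.sc s) d w) ∧
        (∀ w : ℂ, 0 < w.im → w ≠ Complex.I → (SM.sc s w).re + (SM.sc s w).im = 1 →
          ∃ f : ℂ → ℂ, f w = SM.sc s w ∧ (∀ᶠ z in 𝓝 w, DifferentiableAt ℂ f z) ∧ deriv f w ≠ 0 ∧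
            ∀ᶠ z in 𝓝 w, SM.sc s z =
              if (f z).re + (f z).im ≤ 1 then f z else f z - ((1 - s) / 2 : ℂ) * (1 + Complex.I)) ∧
        (∀ M : ℝ,
          (∀ᶠ w in 𝓝[{w : ℂ | 0 < w.im}] ((2 * Real.sqrt s / (1 - s) : ℝ) : ℂ),
            (SM.sc s w).re - (SM.sc s w).im < M ∧ (SM.sc s w).re + (SM.sc s w).im < s) ∧
          (∀ᶠ w in 𝓝[≠] Complex.I,
            (SM.sc s w).re - (SM.sc s w).im < M ∧ s < (SM.sc s w).re + (SM.sc s w).im) ∧
          (∀ᶠ w in cocompact ℂ ⊓ 𝓟 {w : ℂ | 0 < w.im}, M < (SM.sc s w).re - (SM.sc s w).im)) ∧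
        ∀ x : ℝ, 2 * Real.sqrt s / (1 - s) < x →
          Tendsto (fun w => (SM.sc s w).re + (SM.sc s w).im) (𝓝[{w : ℂ | 0 < w.im}] (x : ℂ)) (𝓝 0)) ∧
      ∀ c n : ℕ → ℕ, Tendsto (fun j => (c j : ℝ) + 2 * n j) atTop atTop →
        Tendsto (fun j => (c j : ℝ) / ((c j : ℝ) + 2 * n j)) atTop (𝓝 s) →
        Tendsto (fun j => SCH.sri (c j) (n j)) atTop
          (𝓝 (1 / 2 + Real.Gamma (2 / 3) / (Real.sqrt Real.pi * Real.Gamma (1 / 6)) *
            ∫ y in (0 : ℝ)..(2 * Real.sqrt s / (1 - s)), (1 + y ^ 2) ^ (-(2 / 3) : ℝ))) :=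
  fun _ h0 h1 => ⟨⟨(SM.conformal_map h0 h1).1, (SM.conformal_map h0 h1).2.1, (SM.conformal_map h0 h1).2.2.1,
    fun M => ⟨SM.sc_end_w1 h0 h1 M, SM.sc_end_I h0 h1 M, SM.sc_end_inf h0 h1 M⟩, fun _ hx => SM.sc_left h0 h1 hx⟩,
    fun _ _ hL h => SCH.limit h0 h1 hL h⟩
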